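import Mathlib

/-!
# BDDs over `V ∪ V'` are translated into mental programs of quasi-polynomial length

Let `Ω` be an ordered binary decision diagram with `N` nodes over `V ∪ V'`, `n = |V|`. For two
nodes `u`, `v` and an interval `I` of the order of the tested variables let `R (I, u, v)` be the
relation on states: starting in `u` and reading the variables in `I` one arrives in `v`. Then
`R (I₁ ∪ I₂, u, v) = ⋃ w, R (I₁, u, w) ∩ R (I₂, w, v)`, and for an interval with one variable `p` or
`p'` the relation is a union of some of the relations `p?; U`, `(¬p)?; U`, `U; p?`, `U; (¬p)?`, where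
`U` is the universal relation, which has a program of length `O(n)`. Halving the intervals gives a
program of length `(12 n + 8) (4 N) ^ (⌈log₂ N⌉ + 1)`. The linear dependence on the number of
the variables which are not tested by `Ω` cannot be avoided.
-/

namespace Pool.Agent.Results.MP_811ee8_lc.QuasiPolynomial

/-- Boolean formulas over `V`. -/
inductive Fml (V : Type) : Type
  | tru | fls
  | var (p : V)
  | neg (φ : Fml V)
  | and (φ ψ : Fml V)
  | or (φ ψ : Fml V)

/-- A state `s` (a subset of `V`, given by its characteristic function) satisfies a formula. -/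
def Fml.Sat {V : Type} (s : V → Bool) : Fml V → Prop
  | .tru => True
  | .fls => False
  | .var p => s p = true
  | .neg φ => ¬ φ.Sat s
  | .and φ ψ => φ.Sat s ∧ ψ.Sat s
  | .or φ ψ => φ.Sat s ∨ ψ.Sat s

/-- The number of symbols of a formula, with parentheses around binary operations. -/
def Fml.len {V : Type} : Fml V → ℕ
  | .tru => 1
  | .fls => 1
  | .var _ => 1
  | .neg φ => φ.len + 1
  | .and φ ψ => φ.len + ψ.len + 3
  | .or φ ψ => φ.len + ψ.len + 3

/-- Mental programs over `V`. -/
inductive Prog (V : Type) : Type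
  | setT (p : V)
  | setF (p : V)
  | test (β : Fml V)
  | union (a b : Prog V)
  | comp (a b : Prog V)
  | inter (a b : Prog V)

/-- The relation denoted by a mental program. -/
def Prog.Rel {V : Type} : Prog V → (V → Bool) → (V → Bool) → Prop
  | .setT p, s, t => t p = true ∧ ∀ q, q ≠ p → t q = s q
  | .setF p, s, t => t p = false ∧ ∀ q, q ≠ p → t q = s q
  | .test β, s, t => s = t ∧ β.Sat s
  | .union a b, s, t => a.Rel s t ∨ b.Rel s t
  | .comp a b, s, t => ∃ r, a.Rel s r ∧ b.Rel r t
  | .inter a b, s, t => a.Rel s t ∧ b.Rel s t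

/-- The length of a program: the number of its symbols (an atomic program has three, there are
parentheses around binary operations). -/
def Prog.len {V : Type} : Prog V → ℕ
  | .setT _ => 3
  | .setF _ => 3
  | .test β => β.len + 1
  | .union a b => a.len + b.len + 3
  | .comp a b => a.len + b.len + 3
  | .inter a b => a.len + b.len + 3

/-- Ordered binary decision diagrams over `V ∪ V'`; `Sum.inl p` is `p` and `Sum.inr p` is `p'`.
The nodes are `0, …, size - 1`; `node u` is the value of the terminal node `u`, or the variable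
tested at `u` with the nodes reached if it is false and if it is true. `rank` gives the order of
the variables. -/
structure BDD (V : Type) where
  size : ℕ
  root : Fin size
  node : Fin size → Bool ⊕ ((V ⊕ V) × Fin size × Fin size)
  rank : V ⊕ V → ℕ
  rank_inj : Function.Injective rank
  ordered : ∀ u x l h, node u = Sum.inr (x, l, h) → ∀ c, c = l ∨ c = h →
    ∀ y l' h', node c = Sum.inr (y, l', h') → rank x < rank y

/-- `Ω.Eval a u b`: at the node `u` the diagram has the value `b` for the assignment `a`. -/
inductive BDD.Eval {V : Type} (Ω : BDD V) (a : V ⊕ V → Bool) : Fin Ω.size → Bool → Prop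
  | leaf (u b) : Ω.node u = Sum.inl b → Ω.Eval a u b
  | low (u x l h b) : Ω.node u = Sum.inr (x, l, h) → a x = false → Ω.Eval a l b → Ω.Eval a u b
  | high (u x l h b) : Ω.node u = Sum.inr (x, l, h) → a x = true → Ω.Eval a h b → Ω.Eval a u b

/-- The relation represented by `Ω`. -/
def BDD.Rel {V : Type} (Ω : BDD V) (s t : V → Bool) : Prop :=
  Ω.Eval (Sum.elim s t) Ω.root true

/-- `p` or `p'` is tested at some node. -/
def BDD.Tests {V : Type} (Ω : BDD V) (p : V) : Prop :=
  ∃ u x l h, Ω.node u = Sum.inr (x, l, h) ∧ (x = Sum.inl p ∨ x = Sum.inr p)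

/-- A translation of BDDs into mental programs is correct. -/
def Correct (τ : (V : Type) → [Fintype V] → BDD V → Prog V) : Prop :=
  ∀ (V : Type) [Fintype V] (Ω : BDD V) (s t : V → Bool), (τ V Ω).Rel s t ↔ Ω.Rel s t

/-! ### programs -/

variable {V : Type}

/-- the assignments of arbitrary values to the variables in the list -/
def free : List V → Prog V
  | [] => .test .tru
  | p :: L => .comp (.union (.setT p) (.setF p)) (free L)

theorem free_len (L : List V) : (free L).len = 12 * L.length + 2 := by
  induction L with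
  | nil => rfl
  | cons p L ih => simp only [free, Prog.len, ih, List.length_cons]; ring

theorem free_rel (L : List V) (s t : V → Bool) :
    (free L).Rel s t ↔ ∀ q, q ∉ L → t q = s q := by
  classical
  induction L generalizing s with
  | nil =>
    simp only [free, Prog.Rel, Fml.Sat, and_true, List.not_mem_nil, not_false_eq_true,
      forall_const]
    exact ⟨fun h q => by rw [h], fun h => funext fun q => (h q).symm⟩
  | cons p L ih =>
    simp only [free, Prog.Rel]
    constructor
    · rintro ⟨r, hr, h⟩ q hq
      rw [List.mem_cons, not_or] at hq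
      rw [(ih r).1 h q hq.2]
      rcases hr with hr | hr <;> exact hr.2 q hq.1
    · intro h
      refine ⟨Function.update s p (t p), ?_, (ih _).2 ?_⟩
      · cases htp : t p
        · right
          exact ⟨by simp, fun q hq => by simp [hq]⟩
        · left
          exact ⟨by simp, fun q hq => by simp [hq]⟩
      · intro q hq
        by_cases hqp : q = p
        · subst hqp; simp
        · rw [Function.update_of_ne hqp]
          exact h q (by simp [hqp, hq])

/-- the universal relation -/
noncomputable def univ (V : Type) [Fintype V] : Prog V := free (Finset.univ : Finset V).toList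

theorem univ_len (V : Type) [Fintype V] : (univ V).len = 12 * Fintype.card V + 2 := by
  rw [univ, free_len, Finset.length_toList, Finset.card_univ]

theorem univ_rel [Fintype V] (s t : V → Bool) : (univ V).Rel s t := by
  rw [univ, free_rel]
  intro q hq
  exact absurd (Finset.mem_toList.2 (Finset.mem_univ q)) hq

/-- the union of a list of programs -/
def bigU : List (Prog V) → Prog V
  | [] => .test .fls
  | π :: L => .union π (bigU L)

theorem bigU_rel (L : List (Prog V)) (s t : V → Bool) :
    (bigU L).Rel s t ↔ ∃ π ∈ L, π.Rel s t := by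
  induction L with
  | nil => simp [bigU, Prog.Rel, Fml.Sat]
  | cons π L ih => simp [bigU, Prog.Rel, ih]

theorem bigU_len (L : List (Prog V)) (m : ℕ) (h : ∀ π ∈ L, π.len ≤ m) :
    (bigU L).len ≤ L.length * (m + 3) + 2 := by
  induction L with
  | nil => simp [bigU, Prog.len, Fml.len]
  | cons π L ih =>
    simp only [bigU, Prog.len, List.length_cons]
    have h1 := h π (by simp)
    have h2 := ih fun π hπ => h π (by simp [hπ])
    have : (L.length + 1) * (m + 3) = L.length * (m + 3) + (m + 3) := by ring
    omega

/-- the condition that the variable `x` has the value `b` -/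
noncomputable def lit [Fintype V] (b : Bool) : V ⊕ V → Prog V
  | .inl p => .comp (.test (if b then .var p else .neg (.var p))) (univ V)
  | .inr p => .comp (univ V) (.test (if b then .var p else .neg (.var p)))

theorem lit_rel [Fintype V] (b : Bool) (x : V ⊕ V) (s t : V → Bool) :
    (lit b x).Rel s t ↔ Sum.elim s t x = b := by
  have key : ∀ (p : V) (s : V → Bool),
      (if b then Fml.var p else .neg (.var p) : Fml V).Sat s ↔ s p = b := by
    intro p s
    cases b <;> simp [Fml.Sat]
  rcases x with p | p
  · simp only [lit, Prog.Rel, Sum.elim_inl]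
    constructor
    · rintro ⟨r, ⟨rfl, h⟩, -⟩
      exact (key p s).1 h
    · intro h
      exact ⟨s, ⟨rfl, (key p s).2 h⟩, univ_rel _ _⟩
  · simp only [lit, Prog.Rel, Sum.elim_inr]
    constructor
    · rintro ⟨r, -, rfl, h⟩
      exact (key p r).1 h
    · intro h
      exact ⟨t, univ_rel _ _, rfl, (key p t).2 h⟩

theorem lit_len [Fintype V] (b : Bool) (x : V ⊕ V) :
    (lit b x).len ≤ 12 * Fintype.card V + 8 := by
  have key : ∀ p : V, (if b then Fml.var p else .neg (.var p) : Fml V).len ≤ 2 := by
    intro p
    cases b <;> simp [Fml.len]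
  rcases x with p | p <;> simp only [lit, Prog.len, univ_len] <;> have := key p <;> omega

/-! ### the paths in the diagram -/

/-- read the variable of rank `r` -/
def step (Ω : BDD V) (a : V ⊕ V → Bool) (u : Fin Ω.size) (r : ℕ) : Fin Ω.size :=
  match Ω.node u with
  | .inl _ => u
  | .inr (x, l, h) => if Ω.rank x = r then (if a x then h else l) else u

/-- read the variables in the list -/
def run (Ω : BDD V) (a : V ⊕ V → Bool) (u : Fin Ω.size) (R : List ℕ) : Fin Ω.size :=
  R.foldl (step Ω a) u

theorem eval_iff_run (Ω : BDD V) (a : V ⊕ V → Bool) (b : Bool) (R : List ℕ)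
    (hR : R.Pairwise (· < ·))
    (hcl : ∀ v x l h, Ω.node v = Sum.inr (x, l, h) → (∃ z ∈ R, z ≤ Ω.rank x) → Ω.rank x ∈ R)
    (u : Fin Ω.size) (hu : ∀ x l h, Ω.node u = Sum.inr (x, l, h) → Ω.rank x ∈ R) :
    Ω.Eval a u b ↔ Ω.node (run Ω a u R) = Sum.inl b := by
  induction R generalizing u with
  | nil =>
    have hleaf : ∃ b', Ω.node u = Sum.inl b' := by
      rcases h : Ω.node u with b' | ⟨x, l, h'⟩
      · exact ⟨b', rfl⟩
      · exact absurd (hu x l h' h) (by simp)
    obtain ⟨b', hb'⟩ := hleaf
    simp only [run, List.foldl_nil]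
    constructor
    · intro h
      cases h with
      | leaf _ _ h => exact h
      | low _ x l h _ h1 _ _ => rw [hb'] at h1; cases h1
      | high _ x l h _ h1 _ _ => rw [hb'] at h1; cases h1
    · intro h
      exact .leaf u b h
  | cons r R ih =>
    rw [List.pairwise_cons] at hR
    have hcl' : ∀ v x l h, Ω.node v = Sum.inr (x, l, h) → (∃ z ∈ R, z ≤ Ω.rank x) →
        Ω.rank x ∈ R := by
      rintro v x l h hv ⟨z, hz, hzx⟩
      have h1 := hcl v x l h hv ⟨z, by simp [hz], hzx⟩
      rcases List.mem_cons.1 h1 with h2 | h2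
      · have := hR.1 z hz
        omega
      · exact h2
    have hrun : run Ω a u (r :: R) = run Ω a (step Ω a u r) R := rfl
    rw [hrun]
    rcases hn : Ω.node u with b' | ⟨x, l, h⟩
    · have hst : step Ω a u r = u := by simp [step, hn]
      rw [hst]
      exact ih hR.2 hcl' u (fun x l h hx => by rw [hn] at hx; cases hx)
    · have hx := hu x l h hn
      by_cases hxr : Ω.rank x = r
      · have hst : step Ω a u r = if a x then h else l := by simp [step, hn, hxr]
        rw [hst]
        have hchild : ∀ c, c = l ∨ c = h → ∀ y l' h', Ω.node c = Sum.inr (y, l', h') →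
            Ω.rank y ∈ R := by
          intro c hc y l' h' hy
          have h1 := Ω.ordered u x l h hn c hc y l' h' hy
          have h2 := hcl c y l' h' hy ⟨r, by simp, by omega⟩
          rcases List.mem_cons.1 h2 with h3 | h3
          · omega
          · exact h3
        cases hax : a x
        · simp only [Bool.false_eq_true, if_false]
          rw [← ih hR.2 hcl' l (hchild l (Or.inl rfl))]
          constructor
          · intro he
            cases he with
            | leaf _ _ h1 => rw [hn] at h1; cases h1
            | low _ x' l' h' _ h1 _ h3 =>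
              rw [hn] at h1
              cases h1
              exact h3
            | high _ x' l' h' _ h1 h2 _ =>
              rw [hn] at h1
              cases h1
              rw [hax] at h2
              cases h2
          · intro he
            exact .low u x l h b hn hax he
        · simp only [if_true]
          rw [← ih hR.2 hcl' h (hchild h (Or.inr rfl))]
          constructor
          · intro he
            cases he with
            | leaf _ _ h1 => rw [hn] at h1; cases h1
            | low _ x' l' h' _ h1 h2 _ =>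
              rw [hn] at h1
              cases h1
              rw [hax] at h2
              cases h2
            | high _ x' l' h' _ h1 _ h3 =>
              rw [hn] at h1
              cases h1
              exact h3
          · intro he
            exact .high u x l h b hn hax he
      · have hst : step Ω a u r = u := by simp [step, hn, hxr]
        rw [hst]
        refine ih hR.2 hcl' u (fun x' l' h' hx' => ?_)
        rw [hn] at hx'
        cases hx'
        rcases List.mem_cons.1 hx with h2 | h2
        · exact absurd h2 hxr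
        · exact h2

/-- the ranks of the tested variables -/
noncomputable def ranks (Ω : BDD V) : Finset ℕ :=
  (Finset.univ : Finset (Fin Ω.size)).biUnion fun u =>
    match Ω.node u with
    | .inl _ => ∅
    | .inr (x, _, _) => {Ω.rank x}

theorem mem_ranks (Ω : BDD V) (r : ℕ) :
    r ∈ ranks Ω ↔ ∃ u x l h, Ω.node u = Sum.inr (x, l, h) ∧ Ω.rank x = r := by
  simp only [ranks, Finset.mem_biUnion, Finset.mem_univ, true_and]
  constructor
  · rintro ⟨u, hu⟩
    rcases hn : Ω.node u with b | ⟨x, l, h⟩
    · rw [hn] at hu; simp at hu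
    · rw [hn] at hu
      simp only [Finset.mem_singleton] at hu
      exact ⟨u, x, l, h, hn, hu.symm⟩
  · rintro ⟨u, x, l, h, hn, rfl⟩
    exact ⟨u, by rw [hn]; simp⟩

theorem card_ranks (Ω : BDD V) : (ranks Ω).card ≤ Ω.size := by
  refine (Finset.card_biUnion_le).trans ?_
  refine (Finset.sum_le_card_nsmul _ _ 1 fun u _ => ?_).trans (by simp)
  rcases hn : Ω.node u with b | ⟨x, l, h⟩ <;> simp

/-! ### the programs for intervals -/

/-- the program for the relation `run (s, t) u R = v` -/
noncomputable def seg [Fintype V] (Ω : BDD V) : ℕ → List ℕ → Fin Ω.size → Fin Ω.size → Prog V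
  | 0, [], u, v => if u = v then univ V else .test .fls
  | 0, r :: _, u, v =>
    match Ω.node u with
    | .inl _ => if u = v then univ V else .test .fls
    | .inr (x, l, h) =>
      if Ω.rank x = r then
        (if h = v then (if l = v then univ V else lit true x)
          else (if l = v then lit false x else .test .fls))
      else if u = v then univ V else .test .fls
  | k + 1, R, u, v => bigU ((List.finRange Ω.size).map fun w =>
      .inter (seg Ω k (R.take (2 ^ k)) u w) (seg Ω k (R.drop (2 ^ k)) w v))

theorem seg_rel [Fintype V] (Ω : BDD V) (s t : V → Bool) (k : ℕ) (R : List ℕ)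
    (hR : R.length ≤ 2 ^ k) (u v : Fin Ω.size) :
    (seg Ω k R u v).Rel s t ↔ run Ω (Sum.elim s t) u R = v := by
  induction k generalizing R u v with
  | zero =>
    have hU : ∀ c : Prop, ∀ [Decidable c],
        ((if c then univ V else .test .fls : Prog V).Rel s t ↔ c) := by
      intro c _
      by_cases hc : c <;> simp [hc, univ_rel, Prog.Rel, Fml.Sat]
    rcases R with _ | ⟨r, _ | ⟨r', R⟩⟩
    · simp only [seg, run, List.foldl_nil]
      exact hU _
    · simp only [seg, run, List.foldl_cons, List.foldl_nil, step]
      rcases hn : Ω.node u with b | ⟨x, l, h⟩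
      · simp only
        exact hU _
      · simp only
        by_cases hxr : Ω.rank x = r
        · simp only [hxr, if_true]
          by_cases hh : h = v <;> by_cases hl : l = v <;>
            simp only [hh, hl, if_true, if_false, univ_rel, lit_rel, Prog.Rel, Fml.Sat] <;>
            cases hx : Sum.elim s t x <;> simp [hh, hl]
        · simp only [hxr, if_false]
          exact hU _
    · simp at hR
  | succ k ih =>
    simp only [seg, bigU_rel, List.mem_map, List.mem_finRange, true_and]
    have h1 : (R.take (2 ^ k)).length ≤ 2 ^ k := by simp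
    have h2 : (R.drop (2 ^ k)).length ≤ 2 ^ k := by
      rw [List.length_drop]
      have : 2 ^ (k + 1) = 2 ^ k + 2 ^ k := by ring
      omega
    have hsplit : run Ω (Sum.elim s t) u R =
        run Ω (Sum.elim s t) (run Ω (Sum.elim s t) u (R.take (2 ^ k))) (R.drop (2 ^ k)) := by
      simp only [run]
      rw [← List.foldl_append, List.take_append_drop]
    rw [hsplit]
    constructor
    · rintro ⟨_, ⟨w, rfl⟩, h3, h4⟩
      rw [ih _ h1] at h3
      rw [ih _ h2] at h4
      rw [h3, h4]
    · intro h
      exact ⟨_, ⟨run Ω (Sum.elim s t) u (R.take (2 ^ k)), rfl⟩, (ih _ h1 _ _).2 rfl,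
        (ih _ h2 _ _).2 h⟩

theorem seg_len [Fintype V] (Ω : BDD V) (k : ℕ) (R : List ℕ) (u v : Fin Ω.size) :
    (seg Ω k R u v).len ≤ (4 * Ω.size) ^ k * (12 * Fintype.card V + 8) := by
  have hN : 1 ≤ Ω.size := by
    have := Ω.root.2
    omega
  induction k generalizing R u v with
  | zero =>
    have hU : ∀ c : Prop, ∀ [Decidable c],
        (if c then univ V else .test .fls : Prog V).len ≤ 12 * Fintype.card V + 8 := by
      intro c _
      by_cases hc : c
      · simp only [hc, if_true, univ_len]; omega
      · simp only [hc, if_false, Prog.len, Fml.len]; omega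
    rw [pow_zero, one_mul]
    rcases R with _ | ⟨r, R⟩
    · simp only [seg]
      exact hU _
    · simp only [seg]
      rcases hn : Ω.node u with b | ⟨x, l, h⟩
      · simp only
        exact hU _
      · simp only
        by_cases hxr : Ω.rank x = r
        · simp only [hxr, if_true]
          by_cases hh : h = v <;> by_cases hl : l = v <;> simp only [hh, hl, if_true, if_false]
          · rw [univ_len]; omega
          · exact lit_len _ _
          · exact lit_len _ _
          · simp only [Prog.len, Fml.len]; omega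
        · simp only [hxr, if_false]
          exact hU _
  | succ k ih =>
    obtain ⟨m, hm⟩ : ∃ m, m = (4 * Ω.size) ^ k * (12 * Fintype.card V + 8) := ⟨_, rfl⟩
    rw [← hm] at ih
    have hm8 : 8 ≤ m := by
      have : 1 ≤ (4 * Ω.size) ^ k := Nat.one_le_pow _ _ (by omega)
      calc 8 ≤ 1 * (12 * Fintype.card V + 8) := by omega
        _ ≤ m := hm ▸ Nat.mul_le_mul_right _ this
    have h1 := bigU_len ((List.finRange Ω.size).map fun w =>
      Prog.inter (seg Ω k (R.take (2 ^ k)) u w) (seg Ω k (R.drop (2 ^ k)) w v)) (2 * m + 3) (by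
        intro π hπ
        rw [List.mem_map] at hπ
        obtain ⟨w, -, rfl⟩ := hπ
        simp only [Prog.len]
        have h2 := ih (R.take (2 ^ k)) u w
        have h3 := ih (R.drop (2 ^ k)) w v
        omega)
    rw [List.length_map, List.length_finRange] at h1
    simp only [seg]
    refine h1.trans ?_
    have h4 : (4 * Ω.size) ^ (k + 1) * (12 * Fintype.card V + 8) = Ω.size * (4 * m) := by
      rw [hm]; ring
    rw [h4]
    calc Ω.size * (2 * m + 3 + 3) + 2 ≤ Ω.size * (2 * m + 3 + 3) + Ω.size * 2 := by omega
      _ = Ω.size * (2 * m + 8) := by ring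
      _ ≤ Ω.size * (4 * m) := Nat.mul_le_mul_left _ (by omega)

/-- is the node the terminal node with the value `true`? -/
def isTrue (Ω : BDD V) (v : Fin Ω.size) : Bool :=
  match Ω.node v with
  | .inl b => b
  | .inr _ => false

theorem isTrue_iff (Ω : BDD V) (v : Fin Ω.size) :
    isTrue Ω v = true ↔ Ω.node v = Sum.inl true := by
  rcases h : Ω.node v with b | x <;> simp [isTrue, h]

/-- the translation -/
noncomputable def tau (V : Type) [Fintype V] (Ω : BDD V) : Prog V :=
  bigU (((List.finRange Ω.size).filter (isTrue Ω)).map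
    fun v => seg Ω (Nat.clog 2 Ω.size) ((ranks Ω).sort (· ≤ ·)) Ω.root v)

theorem tau_rel (V : Type) [Fintype V] (Ω : BDD V) (s t : V → Bool) :
    (tau V Ω).Rel s t ↔ Ω.Rel s t := by
  have hsort : ((ranks Ω).sort (· ≤ ·)).Pairwise (· < ·) := (ranks Ω).sortedLT_sort.pairwise
  have hlen : ((ranks Ω).sort (· ≤ ·)).length ≤ 2 ^ Nat.clog 2 Ω.size := by
    rw [Finset.length_sort]
    exact (card_ranks Ω).trans (Nat.le_pow_clog (by norm_num) _)
  have hmem : ∀ v x l h, Ω.node v = Sum.inr (x, l, h) → Ω.rank x ∈ (ranks Ω).sort (· ≤ ·) := by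
    intro v x l h hv
    rw [Finset.mem_sort, mem_ranks]
    exact ⟨v, x, l, h, hv, rfl⟩
  rw [BDD.Rel, eval_iff_run Ω _ true _ hsort (fun v x l h hv _ => hmem v x l h hv) Ω.root
    (fun x l h hx => hmem _ x l h hx)]
  simp only [tau, bigU_rel, List.mem_map, List.mem_filter, List.mem_finRange, true_and]
  constructor
  · rintro ⟨_, ⟨v, hv, rfl⟩, h⟩
    rw [seg_rel Ω s t _ _ hlen] at h
    rw [h]
    exact (isTrue_iff Ω v).1 hv
  · intro h
    exact ⟨_, ⟨_, (isTrue_iff Ω _).2 h, rfl⟩, (seg_rel Ω s t _ _ hlen _ _).2 rfl⟩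

theorem tau_len (V : Type) [Fintype V] (Ω : BDD V) :
    (tau V Ω).len ≤ (12 * Fintype.card V + 8) * (4 * Ω.size) ^ (Nat.clog 2 Ω.size + 1) := by
  have hN : 1 ≤ Ω.size := by
    have := Ω.root.2
    omega
  obtain ⟨m, hm⟩ : ∃ m, m = (4 * Ω.size) ^ (Nat.clog 2 Ω.size) * (12 * Fintype.card V + 8) :=
    ⟨_, rfl⟩
  have hm8 : 8 ≤ m := by
    have : 1 ≤ (4 * Ω.size) ^ (Nat.clog 2 Ω.size) := Nat.one_le_pow _ _ (by omega)
    calc 8 ≤ 1 * (12 * Fintype.card V + 8) := by omega
      _ ≤ m := hm ▸ Nat.mul_le_mul_right _ this
  have h1 := bigU_len (((List.finRange Ω.size).filter (isTrue Ω)).map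
    fun v => seg Ω (Nat.clog 2 Ω.size) ((ranks Ω).sort (· ≤ ·)) Ω.root v) m (by
      intro π hπ
      rw [List.mem_map] at hπ
      obtain ⟨w, -, rfl⟩ := hπ
      rw [hm]
      exact seg_len Ω _ _ _ _)
  have h2 : (((List.finRange Ω.size).filter (isTrue Ω)).map
      fun v => seg Ω (Nat.clog 2 Ω.size) ((ranks Ω).sort (· ≤ ·)) Ω.root v).length ≤ Ω.size := by
    rw [List.length_map]
    exact (List.length_filter_le _ _).trans (by simp)
  calc (tau V Ω).len ≤ _ := h1
    _ ≤ Ω.size * (m + 3) + 2 := by gcongr
    _ ≤ Ω.size * (m + 3) + Ω.size * 2 := by omega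
    _ = Ω.size * (m + 5) := by ring
    _ ≤ Ω.size * (4 * m) := Nat.mul_le_mul_left _ (by omega)
    _ = (12 * Fintype.card V + 8) * (4 * Ω.size) ^ (Nat.clog 2 Ω.size + 1) := by
      rw [hm]; ring

/-! ### variables which are not tested -/

/-- the variables which are assigned in a program -/
noncomputable def assigned : Prog V → Finset V := by
  classical
  exact fun π => Prog.rec (fun p => {p}) (fun p => {p}) (fun _ => ∅) (fun _ _ x y => x ∪ y)
    (fun _ _ x y => x ∪ y) (fun _ _ x y => x ∪ y) π

theorem assigned_card (π : Prog V) : (assigned π).card ≤ π.len := by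
  classical
  induction π with
  | setT p => simp [assigned, Prog.len]
  | setF p => simp [assigned, Prog.len]
  | test β => simp [assigned]
  | union a b iha ihb =>
    have : assigned (.union a b) = assigned a ∪ assigned b := rfl
    rw [this]
    refine (Finset.card_union_le _ _).trans ?_
    simp only [Prog.len]; omega
  | comp a b iha ihb =>
    have : assigned (.comp a b) = assigned a ∪ assigned b := rfl
    rw [this]
    refine (Finset.card_union_le _ _).trans ?_
    simp only [Prog.len]; omega
  | inter a b iha ihb =>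
    have : assigned (.inter a b) = assigned a ∪ assigned b := rfl
    rw [this]
    refine (Finset.card_union_le _ _).trans ?_
    simp only [Prog.len]; omega

theorem rel_assigned (π : Prog V) (s t : V → Bool) (h : π.Rel s t) (p : V)
    (hp : p ∉ assigned π) : t p = s p := by
  classical
  induction π generalizing s t with
  | setT q =>
    have hq : p ≠ q := by simpa [assigned] using hp
    exact h.2 p hq
  | setF q =>
    have hq : p ≠ q := by simpa [assigned] using hp
    exact h.2 p hq
  | test β => rw [h.1]
  | union a b iha ihb =>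
    have : assigned (.union a b) = assigned a ∪ assigned b := rfl
    rw [this, Finset.mem_union, not_or] at hp
    rcases h with h | h
    · exact iha s t h hp.1
    · exact ihb s t h hp.2
  | comp a b iha ihb =>
    have : assigned (.comp a b) = assigned a ∪ assigned b := rfl
    rw [this, Finset.mem_union, not_or] at hp
    obtain ⟨r, h1, h2⟩ := h
    rw [ihb r t h2 hp.2, iha s r h1 hp.1]
  | inter a b iha ihb =>
    have : assigned (.inter a b) = assigned a ∪ assigned b := rfl
    rw [this, Finset.mem_union, not_or] at hp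
    exact iha s t h.1 hp.1

theorem eval_congr (Ω : BDD V) (a a' : V ⊕ V → Bool)
    (h : ∀ u x l h, Ω.node u = Sum.inr (x, l, h) → a x = a' x) (u : Fin Ω.size) (b : Bool)
    (he : Ω.Eval a u b) : Ω.Eval a' u b := by
  induction he with
  | leaf u b h1 => exact .leaf u b h1
  | low u x l h' b h1 h2 _ ih => exact .low u x l h' b h1 (by rw [← h u x l h' h1, h2]) ih
  | high u x l h' b h1 h2 _ ih => exact .high u x l h' b h1 (by rw [← h u x l h' h1, h2]) ih

theorem untested_card [Fintype V] (Ω : BDD V) (S : Finset V) (hS : ∀ p ∈ S, ¬ Ω.Tests p)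
    (hne : ∃ s t, Ω.Rel s t) (π : Prog V) (hπ : ∀ s t, π.Rel s t ↔ Ω.Rel s t) :
    S.card ≤ π.len := by
  classical
  refine le_trans (Finset.card_le_card ?_) (assigned_card π)
  intro p hp
  by_contra hpa
  obtain ⟨s, t, hst⟩ := hne
  have h1 := rel_assigned π s t ((hπ s t).2 hst) p hpa
  have h2 : Ω.Rel s (Function.update t p (!t p)) := by
    refine eval_congr Ω _ _ ?_ _ _ hst
    intro u x l h hx
    rcases x with q | q
    · rfl
    · have hq : q ≠ p := by
        rintro rfl
        exact hS q hp ⟨u, _, l, h, hx, Or.inr rfl⟩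
      simp [hq]
  have h3 := rel_assigned π s _ ((hπ s _).2 h2) p hpa
  rw [Function.update_self, ← h1] at h3
  cases htp : t p <;> rw [htp] at h3 <;> cases h3

theorem card_le_size [Fintype V] (Ω : BDD V) (h : ∀ p, Ω.Tests p) :
    Fintype.card V ≤ Ω.size := by
  choose u x l h' hn hx using h
  have hinj : Function.Injective u := by
    intro p q hpq
    have h1 := hn p
    rw [hpq, hn q] at h1
    have h2 : x q = x p := by
      simp only [Sum.inr.injEq, Prod.mk.injEq] at h1
      exact h1.1
    rcases hx p with h3 | h3 <;> rcases hx q with h4 | h4 <;> rw [h3, h4] at h2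
    · exact (Sum.inl.inj h2).symm
    · cases h2
    · cases h2
    · exact (Sum.inr.inj h2).symm
  have := Fintype.card_le_of_injective u hinj
  simpa using this

/-! ### the bound is subexponential -/

open Asymptotics Filter in
theorem subexp (k : ℕ) (c δ : ℝ) (hc : 0 < c) (hδ : 0 < δ) :
    ∃ N₀ : ℕ, ∀ N : ℕ, N₀ ≤ N → ∀ n : ℕ, n ≤ N ^ k →
      (((12 * n + 8) * (4 * N) ^ (Nat.clog 2 N + 1) : ℕ) : ℝ) < 2 ^ (c * (N : ℝ) ^ δ) := by
  have hlog : (fun x : ℝ => Real.log x) =o[atTop] fun x => x ^ (δ / 2) :=
    isLittleO_log_rpow_atTop (by positivity)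
  have hlogb : (fun x : ℝ => Real.logb 2 x) =o[atTop] fun x => x ^ (δ / 2) := by
    have := hlog.const_mul_left (Real.log 2)⁻¹
    refine this.congr_left fun x => ?_
    rw [Real.logb]; ring
  have hone : ∀ e : ℝ, 0 < e → ∀ a : ℝ, (fun _ : ℝ => a) =o[atTop] fun x : ℝ => x ^ e := by
    intro e he a
    refine isLittleO_const_left.2 (Or.inr ?_)
    exact tendsto_norm_atTop_atTop.comp (tendsto_rpow_atTop he)
  have h1 : (fun x : ℝ => (Real.logb 2 x + 3) ^ 2) =o[atTop] fun x => x ^ δ := by
    have := (hlogb.add (hone (δ / 2) (by positivity) 3))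
    have h2 := this.mul this
    refine (h2.congr_left fun x => by ring).trans_eventuallyEq ?_
    filter_upwards [eventually_gt_atTop (0 : ℝ)] with x hx
    rw [← Real.rpow_add hx]
    congr 1; ring
  have h2 : (fun x : ℝ => (k : ℝ) * Real.logb 2 x + 5) =o[atTop] fun x => x ^ δ := by
    have h3 : (fun x : ℝ => x ^ (δ / 2)) =O[atTop] fun x : ℝ => x ^ δ := by
      refine IsBigO.of_bound 1 ?_
      filter_upwards [eventually_ge_atTop (1 : ℝ)] with x hx
      rw [one_mul, Real.norm_of_nonneg (by positivity), Real.norm_of_nonneg (by positivity)]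
      exact Real.rpow_le_rpow_of_exponent_le hx (by linarith)
    exact ((hlogb.const_mul_left (k : ℝ)).trans_isBigO h3).add (hone δ hδ 5)
  have h3 := (h1.add h2).bound (c := c / 2) (by positivity)
  rw [eventually_atTop] at h3
  obtain ⟨x₀, hx₀⟩ := h3
  refine ⟨max 1 (Nat.ceil x₀), fun N hN n hn => ?_⟩
  have hN1 : 1 ≤ N := le_trans (le_max_left _ _) hN
  have hN1' : (1 : ℝ) ≤ N := by exact_mod_cast hN1
  have hNx : x₀ ≤ (N : ℝ) := (Nat.le_ceil x₀).trans (by exact_mod_cast (le_max_right _ _).trans hN)
  have h4 := hx₀ N hNx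
  set L := Real.logb 2 (N : ℝ) with hL
  have hL0 : 0 ≤ L := Real.logb_nonneg (by norm_num) hN1'
  have hNL : (N : ℝ) = 2 ^ L := by
    rw [hL, Real.rpow_logb (by norm_num) (by norm_num) (by linarith)]
  have hpos : 0 < (N : ℝ) ^ δ := by positivity
  rw [Real.norm_of_nonneg (by positivity), Real.norm_of_nonneg hpos.le] at h4
  have hclog : (Nat.clog 2 N : ℝ) ≤ L + 1 := by
    rcases Nat.lt_or_ge 1 N with h | h
    · have h5 : 2 ^ (Nat.clog 2 N - 1) < N := Nat.pow_pred_clog_lt_self (by norm_num) h
      have h6 : 1 ≤ Nat.clog 2 N := Nat.clog_pos (by norm_num) h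
      have h7 : ((Nat.clog 2 N - 1 : ℕ) : ℝ) < L := by
        rw [hL, Real.lt_logb_iff_rpow_lt (by norm_num) (by linarith), Real.rpow_natCast]
        exact_mod_cast h5
      rw [Nat.cast_sub h6] at h7
      push_cast at h7
      linarith
    · have : N = 1 := le_antisymm h hN1
      subst this
      simp [hL]
  have hA : (((12 * n + 8 : ℕ) : ℝ)) ≤ 2 ^ ((k : ℝ) * L + 5) := by
    have h5 : (n : ℝ) ≤ (N : ℝ) ^ k := by exact_mod_cast hn
    have h6 : (1 : ℝ) ≤ (N : ℝ) ^ k := one_le_pow₀ hN1'
    have h7 : (N : ℝ) ^ k = 2 ^ ((k : ℝ) * L) := by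
      rw [hNL, ← Real.rpow_natCast, ← Real.rpow_mul (by norm_num), mul_comm L]
    rw [Real.rpow_add (by norm_num), ← h7]
    push_cast
    norm_num
    linarith
  have hB : (((4 * N) ^ (Nat.clog 2 N + 1) : ℕ) : ℝ) ≤ 2 ^ ((L + 2) * (L + 2)) := by
    push_cast
    have h5 : (4 : ℝ) * N = 2 ^ (L + 2) := by
      rw [Real.rpow_add (by norm_num), ← hNL]; norm_num; ring
    rw [h5, ← Real.rpow_natCast, ← Real.rpow_mul (by norm_num)]
    refine Real.rpow_le_rpow_of_exponent_le (by norm_num) ?_
    push_cast
    exact mul_le_mul_of_nonneg_left (by linarith) (by linarith)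
  calc (((12 * n + 8) * (4 * N) ^ (Nat.clog 2 N + 1) : ℕ) : ℝ)
      = ((12 * n + 8 : ℕ) : ℝ) * (((4 * N) ^ (Nat.clog 2 N + 1) : ℕ) : ℝ) := by push_cast; ring
    _ ≤ 2 ^ ((k : ℝ) * L + 5) * 2 ^ ((L + 2) * (L + 2)) := by gcongr
    _ = 2 ^ ((k : ℝ) * L + 5 + (L + 2) * (L + 2)) := (Real.rpow_add (by norm_num) _ _).symm
    _ < 2 ^ (c * (N : ℝ) ^ δ) := by
      refine Real.rpow_lt_rpow_of_exponent_lt (by norm_num) ?_
      have : (L + 2) * (L + 2) ≤ (L + 3) ^ 2 := by nlinarith
      nlinarith

/-- **BDDs have mental programs of quasi-polynomial length.** There is a correct translation `τ`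
of BDDs into mental programs such that (1) for every BDD `Ω` with `N` nodes over `V ∪ V'`,
`n = |V|`, the length of `τ Ω` is at most `(12 n + 8) (4 N) ^ (⌈log₂ N⌉ + 1)`; (2) for all
`c, δ > 0` and `k` the length is less than `2 ^ (c N ^ δ)` for all but finitely many `N` and all `Ω`
with `|V| ≤ N ^ k`; (3) `|V| ≤ N` if `p` or `p'` is tested for all `p` in `V`. On the other hand (4)
each program for the relation of a satisfiable `Ω` is at least as long as the number of the
variables `p` such that neither `p` nor `p'` is tested. -/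
theorem result :
    (∃ τ : (V : Type) → [Fintype V] → BDD V → Prog V, Correct τ ∧
      (∀ (V : Type) [Fintype V] (Ω : BDD V), (τ V Ω).len ≤
        (12 * Fintype.card V + 8) * (4 * Ω.size) ^ (Nat.clog 2 Ω.size + 1)) ∧
      ∀ (k : ℕ) (c δ : ℝ), 0 < c → 0 < δ → ∃ N₀ : ℕ, ∀ (V : Type) [Fintype V] (Ω : BDD V),
        N₀ ≤ Ω.size → Fintype.card V ≤ Ω.size ^ k →
          ((τ V Ω).len : ℝ) < 2 ^ (c * (Ω.size : ℝ) ^ δ)) ∧
    (∀ (V : Type) [Fintype V] (Ω : BDD V), (∀ p, Ω.Tests p) → Fintype.card V ≤ Ω.size) ∧
    ∀ (V : Type) [Fintype V] (Ω : BDD V) (S : Finset V), (∀ p ∈ S, ¬ Ω.Tests p) →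
      (∃ s t, Ω.Rel s t) → ∀ π : Prog V, (∀ s t, π.Rel s t ↔ Ω.Rel s t) → S.card ≤ π.len := by
  refine ⟨⟨fun V _ Ω => tau V Ω, fun V _ Ω s t => tau_rel V Ω s t, fun V _ Ω => tau_len V Ω,
    fun k c δ hc hδ => ?_⟩, fun V _ Ω h => card_le_size Ω h,
    fun V _ Ω S hS hne π hπ => untested_card Ω S hS hne π hπ⟩
  obtain ⟨N₀, hN₀⟩ := subexp k c δ hc hδ
  refine ⟨N₀, fun V _ Ω hN hk => lt_of_le_of_lt ?_ (hN₀ Ω.size hN _ hk)⟩
  exact_mod_cast tau_len V Ω

end Pool.Agent.Results.MP_811ee8_lc.QuasiPolynomial
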